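import Pool.Agent.Q10.KZC

/-!
# The generalized abc inequality for almost all tuples on a rational curve

`x ↦ (P 0 (x) : ... : P (n-1) (x))` is a rational curve of degree `D` over `ℚ` in the hyperplane
`Z_1 + ... + Z_n = 0` on which no proper subsum vanishes identically. The product of the `P i` is an
arbitrary polynomial: its irreducible factors over `ℚ` may have any degree. We consider the
admissible tuples on the curve, ordered by their size, and show that almost all of them satisfy
`max |z i| ≤ c rad ^ M` if `M > D / (2 S₁)`; if `D ≤ 2 (2 n - 5) S₁`, then this holds for all the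
exponents `M = 2 n - 5 + ε` of the conjecture.
-/

set_option autoImplicit false

namespace Pool.Agent.Results.MP_7bfa24_nt.AlmostAllOnCurves

open Polynomial

open Classical in
/-- the different monic irreducible factors over `ℚ` of the product of the `P i` -/
noncomputable def factors {n : ℕ} (P : Fin n → ℚ[X]) : Finset ℚ[X] :=
  (UniqueFactorizationMonoid.normalizedFactors (∏ i, P i)).toFinset

open Classical in
/-- the number of the different points of the projective line over an algebraic closure of `ℚ` at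
which the curve meets the coordinate hyperplanes (infinity is one of them if the degrees of the
`P i` are not all equal) -/
noncomputable def zeros {n : ℕ} (P : Fin n → ℚ[X]) : ℕ :=
  ∑ g ∈ factors P, g.natDegree + if ∃ i j, (P i).natDegree < (P j).natDegree then 1 else 0

open Classical in
/-- the number of the rational points among them -/
noncomputable def rationalZeros {n : ℕ} (P : Fin n → ℚ[X]) : ℕ :=
  ((factors P).filter fun g => g.natDegree = 1).card +
    if ∃ i j, (P i).natDegree < (P j).natDegree then 1 else 0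

open Classical in
/-- the number of the irreducible factors of degree at least two, plus half the number of the
rational zeros if there are at least two of them -/
noncomputable def S₁ {n : ℕ} (P : Fin n → ℚ[X]) : ℝ :=
  (((factors P).filter fun g => 2 ≤ g.natDegree).card : ℝ) +
    if 2 ≤ rationalZeros P then (rationalZeros P : ℝ) / 2 else 0

/-- the admissible tuples of the problem -/
def Admissible {n : ℕ} (z : Fin n → ℤ) : Prop :=
  (∀ d : ℤ, (∀ i, d ∣ z i) → IsUnit d) ∧ ∑ i, z i = 0 ∧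
    ∀ s : Finset (Fin n), s.Nonempty → s ≠ Finset.univ → ∑ i ∈ s, z i ≠ 0

/-- the radical of the product of the coordinates -/
def rad {n : ℕ} (z : Fin n → ℤ) : ℕ := ∏ p ∈ (∏ i, z i).natAbs.primeFactors, p

/-- the admissible tuples proportional to `(P 0 (x), ..., P (n-1) (x))` for some rational `x` -/
def OnCurve {n : ℕ} (P : Fin n → ℚ[X]) : Set (Fin n → ℤ) :=
  {z | Admissible z ∧ ∃ x r : ℚ, ∀ i, (z i : ℚ) = r * (P i).eval x}

/-- the admissible tuples on the curve with coordinates of absolute value at most `B` -/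
def AllUpTo {n : ℕ} (P : Fin n → ℚ[X]) (B : ℝ) : Set (Fin n → ℤ) :=
  {z | z ∈ OnCurve P ∧ ∀ i, |(z i : ℝ)| ≤ B}

/-- those among them which violate `max |z i| ≤ c rad ^ M` -/
def Violations {n : ℕ} (P : Fin n → ℚ[X]) (M c B : ℝ) : Set (Fin n → ℤ) :=
  {z | z ∈ AllUpTo P B ∧ ∃ i, c * (rad z : ℝ) ^ M < |(z i : ℝ)|}

section
variable {n : ℕ} {P : Fin n → ℚ[X]}

open Pool.Agent.Q10.KZ

theorem zeros_eq : zeros P = nQ P := by
  classical
  unfold zeros nQ Uneq
  congr!

theorem rationalZeros_eq : rationalZeros P = nL P := by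
  classical
  unfold rationalZeros nL Uneq
  congr!

theorem S₁_eq : S₁ P = T1 P := by
  unfold S₁ T1
  rw [rationalZeros_eq]
  rfl

theorem allUpTo_eq (hn : 2 ≤ n) (B : ℝ) : AllUpTo P B = AA P NV B := by
  ext z
  constructor
  · rintro ⟨⟨⟨h1, h2, h3⟩, h4⟩, h5⟩
    exact ⟨fun i => nv_ne hn ⟨h2, h3⟩ i, h1, h4, ⟨h2, h3⟩, (mz_le_iff (by omega)).2 h5⟩
  · rintro ⟨-, h1, h4, ⟨h2, h3⟩, h5⟩
    exact ⟨⟨⟨h1, h2, h3⟩, h4⟩, (mz_le_iff (by omega)).1 h5⟩

theorem violations_eq (hn : 2 ≤ n) (M c B : ℝ) : Violations P M c B = VA P NV M c B := by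
  ext z
  unfold Violations VA
  rw [Set.mem_ofPred_eq, Set.mem_ofPred_eq, allUpTo_eq hn, lt_mz_iff (by omega)]
  rfl

end

open Pool.Agent.Q10.KZ in
/-- **Theorem.** Let `P 0, ..., P (n-1)` be nonzero polynomials over `ℚ` with sum zero, without
vanishing proper subsums and without a common zero, of maximal degree `D ≥ 1`, and `q` the number
of their different zeros on the projective line.

(0) `2 S₁ = q` if the irreducible factors of the product of the `P i` have degree one or two and
not exactly one of the zeros is rational.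

(1) For all `M, c, δ > 0` at most `C B ^ (1 / (S₁ M) + δ)` admissible tuples on the curve with
`max |z i| ≤ B` violate `max |z i| ≤ c rad ^ M`.

(2) For every `δ > 0` and all large `B` there are at least `B ^ (2 / D - δ)` admissible tuples on
the curve with `max |z i| ≤ B`.

(3) If `M > D / (2 S₁)`, then the number in (1) is at most `B ^ (-ν)` times the number in (2), for
some `ν > 0` and all large `B`. -/
theorem result (n : ℕ) (P : Fin n → ℚ[X]) (hP : ∀ i, P i ≠ 0) (hsum : ∑ i, P i = 0)
    (hsub : ∀ s : Finset (Fin n), s.Nonempty → s ≠ Finset.univ → ∑ i ∈ s, P i ≠ 0)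
    (hu : ∃ u : Fin n → ℚ[X], ∑ i, u i * P i = 1)
    (D : ℕ) (hD : 1 ≤ D) (hdeg : ∀ i, (P i).natDegree ≤ D) (hdeg' : ∃ i, (P i).natDegree = D) :
    ((∀ g ∈ factors P, g.natDegree ≤ 2) → rationalZeros P ≠ 1 → 2 * S₁ P = zeros P) ∧
    (∀ M c δ : ℝ, 0 < M → 0 < c → 0 < δ → ∃ C : ℝ, ∀ B : ℝ, 1 ≤ B →
      ((Violations P M c B).ncard : ℝ) ≤ C * B ^ (1 / (S₁ P * M) + δ)) ∧
    (∀ δ : ℝ, 0 < δ → ∃ B₀ : ℝ, ∀ B : ℝ, B₀ ≤ B →
      B ^ (2 / (D : ℝ) - δ) ≤ ((AllUpTo P B).ncard : ℝ)) ∧
    (∀ M c : ℝ, (D : ℝ) / (2 * S₁ P) < M → 0 < c → ∃ ν : ℝ, 0 < ν ∧ ∃ B₀ : ℝ, ∀ B : ℝ, B₀ ≤ B →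
      ((Violations P M c B).ncard : ℝ) ≤ B ^ (-ν) * ((AllUpTo P B).ncard : ℝ)) := by
  classical
  have hn : 0 < n := by
    obtain ⟨i, -⟩ := hdeg'
    exact i.pos
  have hn2 := two_le_n hP hsum hn
  have hA : ∀ z : Fin n → ℤ, (∀ i, z i ≠ 0) → Pool.Agent.Y557.NF.Prim z → ∀ x r : ℚ,
      x ∉ BadS P → (∀ i, (z i : ℚ) = r * (P i).eval x) → NV z :=
    fun z hz _ x r hx h => nv_of hn hsum hz hx h
  obtain ⟨h5, h5b, h6⟩ := viol hP hu hD hdeg hdeg' NV (badS_finite hsub) hA
  simp only [violations_eq hn2, allUpTo_eq hn2, S₁_eq]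
  refine ⟨?_, ?_, h5b, ?_⟩
  · intro h2 h1
    rw [zeros_eq]
    rw [rationalZeros_eq] at h1
    exact two_T1 hP h2 h1
  · intro M c δ hM hc hδ
    obtain ⟨C, -, h⟩ := h5 M c δ hM hc hδ
    exact ⟨C, h⟩
  · intro M c hM hc
    exact h6 M c hM hc

end Pool.Agent.Results.MP_7bfa24_nt.AlmostAllOnCurves
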