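import Pool.Agent.Q44.Tuple

set_option autoImplicit false

/-!
# The generalized abc inequality at the good rational approximations of real points

Let `n ≥ 3` and `M > 0`.  We parametrize integral points of the hyperplane `x_1 + ... + x_n = 0` by `n` linear forms
`L_1, ..., L_n` with integer coefficients in `d + 1` variables.  For all points `α` of `ℝ ^ d` outside a set of Hausdorff
dimension at most `(1 - 1 / binom(n, ⌊n/2⌋)) / (M τ)`, for every choice of the forms (without a common zero) and all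
but finitely many primitive integer vectors `q`, `q_0 ≥ 1`, with `|α_j - q_j / q_0| ≤ q_0 ^ (-τ)`, the tuple
`(L_1(q), ..., L_n(q))`, divided by its greatest common divisor, satisfies the inequality
`max |x_j| ≤ rad (x_1 ⋯ x_n) ^ M`, if it is admissible.  For `τ = 1 + 1 / d` every point of `ℝ ^ d` has infinitely
many such approximations; so the exceptional set is of measure zero if `M > (1 - 1 / binom(n, ⌊n/2⌋)) / (d + 1)`,
in particular for the exponent `M = 2 n - 5 + ε` of the conjecture, for which its dimension is less than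
`1 / (2 n - 5)` for `τ > 1`.
-/

namespace Pool.Agent.Results.MP_7bfa24_nt.GoodApproximations

open Pool.Agent.Q44.CF MeasureTheory

/-- An admissible `n`-tuple: coprime integers with sum zero and no vanishing proper subsum. -/
def Admissible {n : ℕ} (x : Fin n → ℤ) : Prop :=
  Finset.univ.gcd x = 1 ∧ ∑ i, x i = 0 ∧
    ∀ I : Finset (Fin n), I.Nonempty → I ≠ Finset.univ → ∑ i ∈ I, x i ≠ 0

/-- The radical of `x_1 ⋯ x_n`: the product of the primes dividing it. -/
def rad {n : ℕ} (x : Fin n → ℤ) : ℕ := ∏ p ∈ (∏ i, x i).natAbs.primeFactors, p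

/-- `y` is a positive multiple of an admissible tuple which violates `max |z_i| ≤ rad (z_1 ⋯ z_n) ^ M` -/
def Violation {n : ℕ} (M : ℝ) (y : Fin n → ℤ) : Prop :=
  ∃ (g : ℤ) (z : Fin n → ℤ), 0 < g ∧ (∀ i, y i = g * z i) ∧ Admissible z ∧
    ∃ i, ((rad z : ℕ) : ℝ) ^ M < (|z i| : ℝ)

/-- the integer vector `q` gives a good simultaneous rational approximation of `α` -/
def Approximation {d : ℕ} (α : Fin d → ℝ) (τ : ℝ) (q : Fin (d + 1) → ℤ) : Prop :=
  1 ≤ q 0 ∧ Finset.univ.gcd q = 1 ∧ ∀ j : Fin d, |α j - (q j.succ : ℝ) / (q 0 : ℝ)| ≤ (q 0 : ℝ) ^ (-τ)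

/-- **Theorem.** Let `n ≥ 3`, `M > 0`, `τ > 0` and `d` a natural number. For all `α` in `ℝ ^ d` outside a set of Hausdorff
dimension at most `(1 - 1 / binom(n, ⌊n/2⌋)) / (M τ)`, for all `n` linear forms in `d + 1` variables without a common
zero, only finitely many good approximations `q` of `α` give a tuple of values `(L_1(q), ..., L_n(q))` which is a
multiple of a violation of the `n`-term abc inequality with the exponent `M`. If `d ≥ 1` and
`(1 - 1 / binom(n, ⌊n/2⌋)) < M τ d`, then this holds for almost all `α`. -/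
theorem result (n : ℕ) (hn : 3 ≤ n) (M : ℝ) (hM : 0 < M) (d : ℕ) (τ : ℝ) (hτ : 0 < τ) :
    dimH {α : Fin d → ℝ | ¬ ∀ L : Fin n → Fin (d + 1) → ℤ,
      (∀ x : Fin (d + 1) → ℤ, (∀ i, ∑ j, L i j * x j = 0) → x = 0) →
      {q : Fin (d + 1) → ℤ | Approximation α τ q ∧ Violation M (fun i => ∑ j, L i j * q j)}.Finite} ≤
      ENNReal.ofReal ((1 - 1 / (n.choose (n / 2) : ℝ)) / (M * τ)) ∧
    (1 ≤ d → 1 - 1 / (n.choose (n / 2) : ℝ) < M * τ * d → ∀ᵐ α : Fin d → ℝ,
      ∀ L : Fin n → Fin (d + 1) → ℤ,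
      (∀ x : Fin (d + 1) → ℤ, (∀ i, ∑ j, L i j * x j = 0) → x = 0) →
      {q : Fin (d + 1) → ℤ | Approximation α τ q ∧ Violation M (fun i => ∑ j, L i j * q j)}.Finite) := by
  have hset : ∀ (α : Fin d → ℝ) (L : Fin n → Fin (d + 1) → ℤ),
      {q : Fin (d + 1) → ℤ | Approximation α τ q ∧ Violation M (fun i => ∑ j, L i j * q j)} =
      {x : Fin (d + 1) → ℤ | Near α τ x ∧ Finset.univ.gcd x = 1 ∧
        Violates M (fun i => ∑ j, L i j * x j)} := by
    intro α L
    ext q
    constructor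
    · rintro ⟨⟨h1, h2, h3⟩, h4⟩
      exact ⟨⟨h1, h3⟩, h2, h4⟩
    · rintro ⟨⟨h1, h3⟩, h2, h4⟩
      exact ⟨⟨h1, h2, h3⟩, h4⟩
  have h := dim_tuples n hn M hM d τ hτ
  rw [div_div] at h
  have h1 : dimH {α : Fin d → ℝ | ¬ ∀ L : Fin n → Fin (d + 1) → ℤ,
      (∀ x : Fin (d + 1) → ℤ, (∀ i, ∑ j, L i j * x j = 0) → x = 0) →
      {q : Fin (d + 1) → ℤ | Approximation α τ q ∧ Violation M (fun i => ∑ j, L i j * q j)}.Finite} ≤
      ENNReal.ofReal ((1 - 1 / (n.choose (n / 2) : ℝ)) / (M * τ)) := by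
    refine le_trans (dimH_mono ?_) h
    intro α hα hcon
    refine hα fun L hL => ?_
    rw [hset α L]
    exact hcon L hL
  refine ⟨h1, fun hd hlt => ?_⟩
  have h2 : dimH {α : Fin d → ℝ | ¬ ∀ L : Fin n → Fin (d + 1) → ℤ,
      (∀ x : Fin (d + 1) → ℤ, (∀ i, ∑ j, L i j * x j = 0) → x = 0) →
      {q : Fin (d + 1) → ℤ | Approximation α τ q ∧ Violation M (fun i => ∑ j, L i j * q j)}.Finite} <
      ((d : NNReal) : ENNReal) := by
    refine lt_of_le_of_lt h1 ?_
    have hd0 : (0 : ℝ) < d := by exact_mod_cast hd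
    have h3 : ((d : NNReal) : ENNReal) = ENNReal.ofReal (d : ℝ) := by
      rw [ENNReal.ofReal_natCast]
      norm_cast
    rw [h3, ENNReal.ofReal_lt_ofReal_iff hd0, div_lt_iff₀ (by positivity)]
    linarith
  have h4 := hausdorffMeasure_of_dimH_lt h2
  have h5 : (μH[(d : ℝ)] : Measure (Fin d → ℝ)) = volume := by
    have := hausdorffMeasure_pi_real (ι := Fin d)
    rwa [Fintype.card_fin] at this
  rw [NNReal.coe_natCast, h5] at h4
  rw [ae_iff]
  exact h4

end Pool.Agent.Results.MP_7bfa24_nt.GoodApproximations
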