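import Pool.Agent.Results.MP_7bfa24_nt.SuperpolynomialHeights
import Pool.Agent.Q21.DW.Cnt
import Pool.Agent.Q233.AM.Multiples

/-!
# The generalized abc conjecture: radicals near the multiples of almost every real number

`AtRealMultiples G` (see `Pool.Agent.Q233.AM.Multiples`) says: for `0 < θ < 1` there is `κ > 0` such that for all large
`X` and all real `y ∈ [X ^ (1 - θ), 2 X ^ (1 - θ)]` outside a set of measure at most `X ^ (1 - θ - κ)`, for all
`k ≤ X ^ θ` but at most `X ^ (θ - κ)` EVERY positive integer `m` with `|m - k y| ≤ X ^ κ` has the property `G`; and the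
same for the numbers `y = α 2 ^ ((1 - θ) j)`, `X = 2 ^ j`, `j` large, for almost every `α ∈ [1, 2]`.

Let `n ≥ 3`. There is `c > 0` such that this holds for the property of `m` that ALL admissible `n`-tuples of radical `m`
satisfy `max |x_i| > m ^ (c log log m)`. So all violations of `max |x_i| ≤ C rad ^ M`, for any `M` and `C`, and indeed all
admissible tuples, with a (large) radical in these windows have a height beyond `m ^ (c log log m)`.
-/

set_option autoImplicit false

namespace Pool.Agent.Results.MP_7bfa24_nt.RadicalsAtRealMultiples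

/-- `x` is admissible: the entries sum to `0`, their greatest common divisor is `1`, and no subsum
over a nonempty proper set of indices vanishes. -/
def Admissible {n : ℕ} (x : Fin n → ℤ) : Prop :=
  ∑ i, x i = 0 ∧ Finset.univ.gcd x = 1 ∧
    ∀ I : Finset (Fin n), I.Nonempty → I ≠ Finset.univ → ∑ i ∈ I, x i ≠ 0

/-- the radical of an integer: the product of the distinct primes dividing it -/
def radical (m : ℤ) : ℕ := ∏ p ∈ m.natAbs.primeFactors, p

/-- the largest absolute value of an entry -/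
def size {n : ℕ} (x : Fin n → ℤ) : ℕ := Finset.univ.sup fun i => (x i).natAbs

lemma le_size {n : ℕ} (x : Fin n → ℤ) (i : Fin n) : (x i).natAbs ≤ size x :=
  Finset.le_sup (f := fun i => (x i).natAbs) (Finset.mem_univ i)

lemma mono {c : ℝ} (hc : 0 < c) {m Y : ℕ} (hm : 1 ≤ m) (hmY : m ≤ Y) (hY : 3 ≤ Y) :
    (m : ℝ) ^ (c * Real.log (Real.log m)) ≤ (Y : ℝ) ^ (c * Real.log (Real.log Y)) := by
  have he : Real.exp 1 ≤ 3 := by
    have := Real.exp_one_lt_d9
    linarith
  have hl : ∀ Z : ℕ, 3 ≤ Z → 0 ≤ Real.log (Real.log Z) := by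
    intro Z hZ
    apply Real.log_nonneg
    rw [Real.le_log_iff_exp_le (by positivity)]
    have : (3 : ℝ) ≤ Z := by exact_mod_cast hZ
    linarith
  have hY1 : (1 : ℝ) ≤ Y := by
    have : 1 ≤ Y := by omega
    exact_mod_cast this
  have hY0 : (1 : ℝ) ≤ (Y : ℝ) ^ (c * Real.log (Real.log Y)) :=
    Real.one_le_rpow hY1 (mul_nonneg hc.le (hl Y hY))
  by_cases h3 : 3 ≤ m
  · have hm1 : (1 : ℝ) ≤ m := by exact_mod_cast hm
    have hmY' : (m : ℝ) ≤ Y := by exact_mod_cast hmY
    have hlm : 0 < Real.log m := Real.log_pos (by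
      have : (3 : ℝ) ≤ m := by exact_mod_cast h3
      linarith)
    calc (m : ℝ) ^ (c * Real.log (Real.log m)) ≤ (Y : ℝ) ^ (c * Real.log (Real.log m)) :=
          Real.rpow_le_rpow (by linarith) hmY' (mul_nonneg hc.le (hl m h3))
      _ ≤ (Y : ℝ) ^ (c * Real.log (Real.log Y)) := by
          refine Real.rpow_le_rpow_of_exponent_le hY1 (mul_le_mul_of_nonneg_left ?_ hc.le)
          exact Real.log_le_log hlm (Real.log_le_log (by linarith) hmY')
  · refine le_trans ?_ hY0
    have : m = 1 ∨ m = 2 := by omega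
    rcases this with rfl | rfl
    · rw [Nat.cast_one, Real.one_rpow]
    · push_cast
      apply Real.rpow_le_one_of_one_le_of_nonpos (by norm_num)
      apply mul_nonpos_of_nonneg_of_nonpos hc.le
      apply Real.log_nonpos
      · exact Real.log_nonneg (by norm_num)
      · have := Real.log_two_lt_d9
        linarith

/-- **Theorem.** Let `n ≥ 3`. There is `c > 0` such that, for the `m` near the multiples of almost all real numbers
(`AtRealMultiples`), all admissible `n`-tuples `x` with `rad (x_1 ⋯ x_n) = m` satisfy `max |x_i| > m ^ (c log log m)`. -/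
theorem result (n : ℕ) (hn : 3 ≤ n) :
    ∃ c : ℝ, 0 < c ∧ Pool.Agent.Q233.AM.AtRealMultiples (fun (_ : Unit) (m : ℕ) =>
      ∀ x : Fin n → ℤ, Admissible x → radical (∏ i, x i) = m →
        (m : ℝ) ^ (c * Real.log (Real.log m)) < ((size x : ℕ) : ℝ)) := by
  have hb : (1 : ℝ) ≤ (n.choose (n / 2) : ℝ) := by
    have : 0 < n.choose (n / 2) := Nat.choose_pos (Nat.div_le_self n 2)
    exact_mod_cast this
  obtain ⟨θ, hθ, hθ1⟩ : ∃ θ : ℝ, 1 - 1 / (n.choose (n / 2) : ℝ) < θ ∧ θ < 1 := by
    refine exists_between ?_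
    have : 0 < 1 / (n.choose (n / 2) : ℝ) := by positivity
    linarith
  obtain ⟨c, hc, Y₀, hY⟩ := SuperpolynomialHeights.result n hn (θ - (1 - 1 / (n.choose (n / 2) : ℝ)))
    (by linarith)
  have hθ0 : 0 ≤ θ := by
    have : 1 / (n.choose (n / 2) : ℝ) ≤ 1 := by
      rw [div_le_one (by linarith)]
      exact hb
    linarith
  set Z : ℕ := max Y₀ 3 with hZ
  refine ⟨c, hc, Pool.Agent.Q233.AM.atRealMultiples_of (s := θ) (B := fun (_ : Unit) (m : ℕ) => ∃ x : Fin n → ℤ,
    Admissible x ∧ radical (∏ i, x i) = m ∧ ((size x : ℕ) : ℝ) ≤ (m : ℝ) ^ (c * Real.log (Real.log m)))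
    hθ0 hθ1 (fun _ => ?_) ?_⟩
  · refine Pool.Agent.Q21.DW.ps_of (T := Fin n → ℤ) (fun X => SuperpolynomialHeights.Tuples n c (max X Z))
      (fun x => radical (∏ i, x i)) _ _ ?_ ?_
    · intro ε hε
      refine ⟨(Z : ℝ) ^ θ, fun X hX => ?_⟩
      have hX1 : (1 : ℝ) ≤ X := by exact_mod_cast hX
      have hZ1 : (1 : ℝ) ≤ Z := by
        have : 1 ≤ Z := le_max_of_le_right (by norm_num)
        exact_mod_cast this
      obtain ⟨hfin, hle⟩ := hY (max X Z) (le_max_of_le_right (le_max_left _ _))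
      refine ⟨hfin, hle.trans ?_⟩
      rw [add_sub_cancel]
      have h1 : ((max X Z : ℕ) : ℝ) ≤ Z * X := by
        rw [Nat.cast_max]
        exact max_le (by nlinarith) (by nlinarith)
      calc ((max X Z : ℕ) : ℝ) ^ θ ≤ ((Z : ℝ) * X) ^ θ := Real.rpow_le_rpow (Nat.cast_nonneg _) h1 hθ0
        _ = (Z : ℝ) ^ θ * (X : ℝ) ^ θ := Real.mul_rpow (by linarith) (by linarith)
        _ ≤ (Z : ℝ) ^ θ * (X : ℝ) ^ (θ + ε) :=
          mul_le_mul_of_nonneg_left (Real.rpow_le_rpow_of_exponent_le hX1 (by linarith)) (by positivity)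
    · rintro m N hm hmN ⟨x, hx, hxm, hsz⟩
      refine ⟨x, ⟨hx, ?_, fun i => ?_⟩, hxm⟩
      · change radical (∏ i, x i) ≤ max N Z
        rw [hxm]
        exact le_max_of_le_left hmN
      · have h4 : ((|x i| : ℤ) : ℝ) ≤ ((size x : ℕ) : ℝ) := by
          rw [Int.abs_eq_natAbs]
          exact_mod_cast le_size x i
        exact h4.trans (hsz.trans (mono hc hm (hmN.trans (le_max_left _ _))
          (le_max_of_le_right (le_max_right _ _))))
  · intro _ m _ hB x hx hxm
    by_contra hcon
    exact hB ⟨x, hx, hxm, not_lt.1 hcon⟩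

end Pool.Agent.Results.MP_7bfa24_nt.RadicalsAtRealMultiples
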